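import Mathlib
import Pool.Agent.helper58.FI.SpecC
import Pool.Agent.helper59.FI2.SpecC2

set_option autoImplicit false

/-!
# Project fi2 (MP_baa4d7_al), version 2: the inertial quotient need not be abelian. Blocks K (Clifford theory) and F

RULES. File `Pool/Agent/<seat>/FI2/XXX.lean` with

  import Pool.Agent.helper7.FI2.SpecK
  set_option autoImplicit false
  namespace Pool.Agent.FI2
  open Pool.Agent.helper58.DC Pool.Agent.DI Pool.Agent.GR Pool.Agent.OB Pool.Agent.DR Pool.Agent.FI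
  theorem XXX (hYYY : YYY_stmt) ... : XXX_stmt := ...
  end Pool.Agent.FI2

auxiliary lemmas prefixed `XXX_`, no sorry, no double quotes, no convert / congr!.  Any `_stmt` of this file, of `helper59/FI2/SpecC2`
(`FRA FNG HTZ DOR DDT FIX`, for `FI2.Lo0`, `FI2.Loc`) and of `helper58/FI/SpecC` (write `Pool.Agent.FI.FEQ_stmt` etc. when the name is
ambiguous; `FEQ FSI FMX FTG FT0 FCE FOV FCY ..` are unambiguous) and of GR, DI, DC, DR may be taken as a hypothesis.  The V1 proofs of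
the corresponding rows (`Pool/Agent/*/FI/{FCL,FCN,F12,FCP,FSQ,FCQ,FNC,FFS,FFF}.lean`, grep `theorem FCN`) are the models.

`nP K S` is the number of the pairs of elements of `S` which commute modulo `K`; for `K` normal in `S` it is
`|K|² |A| k(A)`, `A = S / K`, `k(A)` the number of conjugacy classes.
-/

namespace Pool.Agent.FI2

open Pool.Agent.helper58.DC Pool.Agent.DI Pool.Agent.GR Pool.Agent.OB Pool.Agent.DR Pool.Agent.FI

section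

variable {Γ : Type} [Group Γ]

/-- the number of pairs of elements of `S` which commute modulo `K` -/
noncomputable def nP (K S : Subgroup Γ) : ℕ :=
  {x : Γ × Γ | x.1 ∈ S ∧ x.2 ∈ S ∧ x.1 * x.2 * x.1⁻¹ * x.2⁻¹ ∈ K}.ncard

/-- two elements of `S` which commute modulo `K` lie in some `K⟨r⟩`, `r ∈ S` -/
def CY2 (K S : Subgroup Γ) : Prop :=
  ∀ s ∈ S, ∀ g ∈ S, s * g * s⁻¹ * g⁻¹ ∈ K →
    ∃ r ∈ S, (∃ i : ℤ, r ^ i * s ∈ K) ∧ ∃ j : ℤ, r ^ j * g ∈ K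

end

/-! ## K. Clifford theory without cocycles -/

/-- **KTF** (medium; from SCH, IDM, EXP of GR, B2 of DI, CFA of DR).  Trace formula.
Proof.  Write `[s,g] = s g s⁻¹ g⁻¹`.  Let `φ ∈ IrrOn S`, `g ∈ S`, `z k = ψ k⁻¹` (`0` outside `K`): `z` is invariant under conjugation by `S`.
(1) `φ 1 * ∑_{k ∈ K} ψ k⁻¹ * φ (k g) = φ g * ∑_{k ∈ K} ψ k⁻¹ * φ k`: for every `t ∈ S` the left sum is `∑_x z x * φ (g * (t * x * t⁻¹))`
(`φ` is a class function, substitute `x ↦ t x t⁻¹`); average over `t ∈ S` and use SCH for every `x`.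
(2) If `φ = e ψ` on `K`, `e > 0`: `∑_{k ∈ K} ψ k⁻¹ * φ k = e |K|` (B2), `φ 1 = e * ψ 1`, so `(ψ 1 / |K|) ∑_k ψ k⁻¹ * φ (k g) = φ g`.  Otherwise the
sum in (2) is `0`: by CFA (1) `OverE K S φ ψ' e'` with `e' > 0`; if `ψ` is an `S`-conjugate of `ψ'` then `ψ' = ψ` (`ψ` is invariant) and
`φ = e' ψ` on `K`, a contradiction; so `ψ` is different from all the conjugates of `ψ'` and the sum is `0` by orthogonality (B2; all
conjugates are in `IrrOn K`, CCJ).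
(3) Column orthogonality for `S`: `∑_{φ ∈ IrrOn S} φ a * φ b⁻¹ = #{s ∈ S | s⁻¹ * a * s = b}` for `a, b ∈ S` (IDM with the set `IrrOn S`, for which
`eS S (IrrOn S) = dl` by EXP and IDM: `∑_{z ∈ S} dl (z⁻¹ a⁻¹ z b) = Sf (IrrOn S) a b`; also used in TRX of `helper58/FI`).
(4) So for `g ∈ S`: `∑_{φ over ψ} φ g * φ g⁻¹ = (ψ 1 / |K|) ∑_{k ∈ K} ψ k⁻¹ * #{s ∈ S | s⁻¹ * (k g) * s = g} =
(ψ 1 / |K|) ∑_{s ∈ S, [s,g] ∈ K} ψ [s,g]⁻¹` (`k = s g s⁻¹ g⁻¹`).  Sum over `g ∈ S`: `∑_g φ g * φ g⁻¹ = |S|` (B2). -/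
def KTF_stmt : Prop :=
  ∀ (Γ : Type) [Group Γ] [Finite Γ] (K S : Subgroup Γ), K ≤ S → S ≤ nz K → ∀ ψ ∈ IrrOn K,
    (∀ s ∈ S, cjF s ψ = ψ) →
    (Nat.card K : ℂ) * Nat.card S *
        {φ : Γ → ℂ | φ ∈ IrrOn S ∧ ∃ e : ℕ, 0 < e ∧ ∀ x ∈ K, φ x = e * ψ x}.ncard =
      ψ 1 * ∑ᶠ x ∈ {x : Γ × Γ | x.1 ∈ S ∧ x.2 ∈ S ∧ x.1 * x.2 * x.1⁻¹ * x.2⁻¹ ∈ K},
        ψ (x.2 * x.1 * x.2⁻¹ * x.1⁻¹)

/-- **KCC** (medium; from KTF, FCE of `helper58/FI`).  The number of characters over an invariant character.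
Proof.  For a subgroup `H`, `K ≤ H ≤ S`, let `Q H` be the set of the pairs `(s, g)` with `[s,g] ∈ K` and `K ⊔ closure {s, g} = H`,
`a H = ψ 1 * ∑_{Q H} ψ (g s g⁻¹ s⁻¹)`, `q H = #Q H`.  CLAIM: if `CyS K H` then `a H = q H`.  Induction on `|H|`.  All commutators of `H` are in `K`
(`H / K` is cyclic: `K` is normal in `H`), so `H × H` is the disjoint union of the `Q H'`, `K ≤ H' ≤ H`.  FCE for `K, H` (`ψ` is invariant): the
number of `φ ∈ IrrOn H` with `φ = ψ` on `K`, times `|K|`, is `|H|`, and `e = 1` for all the `φ` over `ψ`; so KTF for `H` says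
`∑_{H'} a H' = |H| * |H| = ∑_{H'} q H'`.  The `H' < H` have `CyS K H'` (a subgroup of a cyclic group is cyclic: least positive power of the
generator in `H'` modulo `K`), so `a H' = q H'`, and the term `H' = H` remains.
Now KTF for `S`: every pair `(s, g)` with `[s,g] ∈ K` is in `Q H` for `H = K ⊔ closure {s, g} ≤ K ⊔ zpowers r` (`CY2`), and `CyS K H`.  So the right
side of KTF is `∑_H a H = ∑_H q H = nP K S`.  (`Nat.cast_injective`.) -/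
def KCC_stmt : Prop :=
  ∀ (Γ : Type) [Group Γ] [Finite Γ] (K S : Subgroup Γ), K ≤ S → S ≤ nz K → CY2 K S → ∀ ψ ∈ IrrOn K,
    (∀ s ∈ S, cjF s ψ = ψ) →
    {φ : Γ → ℂ | φ ∈ IrrOn S ∧ ∃ e : ℕ, 0 < e ∧ ∀ x ∈ K, φ x = e * ψ x}.ncard *
      (Nat.card K * Nat.card S) = nP K S

/-- **KEE** (short; from B2 of DI).  `∑_{x ∈ S} φ x * φ x⁻¹ = |S|`, all terms are `|φ x|² ≥ 0` (`φ x⁻¹ = conj (φ x)`), the terms with `x ∈ K` give
`e² ∑_{x ∈ K} ψ x * ψ x⁻¹ = e² |K|`. -/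
def KEE_stmt : Prop :=
  ∀ (Γ : Type) [Group Γ] [Finite Γ] (K S : Subgroup Γ), K ≤ S → ∀ ψ ∈ IrrOn K, ∀ φ ∈ IrrOn S, ∀ e : ℕ,
    (∀ x ∈ K, φ x = e * ψ x) → e ^ 2 * Nat.card K ≤ Nat.card S

/-- **FCL2** (short-medium; from KCC, KEE, CFB, CCJ of DR; model FCL).  Let `S = stF N ψ` (`K ≤ S ≤ nz K`; `ψ` is invariant under `S`).  By CFB
`φ₀ ↦ indf N S φ₀` is a bijection from the `φ₀ ∈ IrrOn S` with `φ₀ = e ψ` on `K` for some `e > 0` onto the set on the left side (note that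
`OverE .. e` and `φ₀ = e ψ` have the same `e`, CFB (3) and (1), CFA (2)): KCC.  Last item: CCJ (last item), and `φ₀` with KEE. -/
def FCL2_stmt : Prop :=
  ∀ (Γ : Type) [Group Γ] [Finite Γ] (K N : Subgroup Γ), K ≤ N → N ≤ nz K → ∀ ψ ∈ IrrOn K,
    CY2 K (stF N ψ) →
    {φ : Γ → ℂ | φ ∈ IrrOn N ∧ ∃ e : ℕ, 0 < e ∧ OverE K N φ ψ e}.ncard *
      (Nat.card K * Nat.card (stF N ψ)) = nP K (stF N ψ) ∧
    ∀ φ ∈ IrrOn N, ∀ e : ℕ, 0 < e → OverE K N φ ψ e →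
      φ 1 * Nat.card (stF N ψ) = e * Nat.card N * ψ 1 ∧ e ^ 2 * Nat.card K ≤ Nat.card (stF N ψ)

/-- **FCN2** (medium; from FCL2, CFA, CCJ of DR; model FCN).  Count the pairs `(φ, ψ)`, `ψ ∈ B`, `φ` over `ψ`, with the weight `|K| |stF N ψ|`.  For given
`φ` the `ψ` under it are one `N`-orbit contained in `B`, of length `|N| / |stF N ψ|`, and `|stF N ψ|` is constant on it: total `|K| |N|`.  For
given `ψ`: total `nP K (stF N ψ)` (FCL2). -/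
def FCN2_stmt : Prop :=
  ∀ (Γ : Type) [Group Γ] [Finite Γ] (K N : Subgroup Γ), K ≤ N → N ≤ nz K → ∀ B : Set (Γ → ℂ),
    B ⊆ IrrOn K → (∀ n ∈ N, ∀ ψ ∈ B, cjF n ψ ∈ B) → (∀ ψ ∈ B, CY2 K (stF N ψ)) →
    Nat.card K * (Nat.card N *
        {φ : Γ → ℂ | φ ∈ IrrOn N ∧ ∃ ψ ∈ B, ∃ e : ℕ, 0 < e ∧ OverE K N φ ψ e}.ncard) =
      ∑ᶠ ψ ∈ B, nP K (stF N ψ)

/-- **F122** (short-medium; from FCN2, FCL2, FOV, CFA of DR, FEQ; model F12).  As F12.  Defects: `φ ∈ Blk M χ N` is over some `ψ ∈ B` with `e > 0`,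
`φ 1 * |stF N ψ| = e * |N| * ψ 1`, `|stF N ψ| = |cz P| * r`, `r = (cz P).relIndex (stF N ψ)`, `p ∤ r`, and `e² ≤ r < p²` (KEE part of FCL2), so
`0 < e < p`, `p ∤ e`: `v_p(φ 1) + v_p|cz P| = v_p|N| + v_p(ψ 1)`. -/
def F122_stmt : Prop :=
  ∀ (p : ℕ) (M : Ideal (integralClosure ℤ ℂ)), Setup p M → ∀ (G : Type) [Group G] [Finite G]
    (P N : Subgroup G), IsPGroup p P → P ≤ N → cz P ≤ N → N ≤ nz P → ∀ χ ∈ Irr G,
    (∀ ψ ∈ Blk M χ (cz P), CY2 (cz P) (stF N ψ)) →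
    Nat.card (cz P) * (Nat.card N * (Blk M χ N).ncard) =
      ∑ᶠ ψ ∈ Blk M χ (cz P), nP (cz P) (stF N ψ) ∧
    ∀ d : ℤ, (∀ ψ ∈ Blk M χ (cz P), ¬ p ∣ (cz P).relIndex (stF N ψ) ∧
        (cz P).relIndex (stF N ψ) < p ^ 2 ∧ Defect p (cz P) ψ d) →
      ∀ φ ∈ Blk M χ N, Defect p N φ d

/-- **KNQ** (short-medium; pure).  Proof.  `S₀ ≤ S ≤ nz K`.  The map `((k, k'), (s, g)) ↦ (k s, k' g)` from `K × K ×` (pairs of `S₀` commuting modulo `C`) to the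
pairs of `S` commuting modulo `K`: `[k s, k' g]` and `[s, g] ∈ S₀` differ by an element of `K` (`K` is normal in `S`), so `[k s, k' g] ∈ K ↔ [s, g] ∈ K ↔
[s, g] ∈ C`.  It is surjective (last hypothesis) and all fibres have `|C|²` elements (`k s = k₁ s₁` iff `k₁⁻¹ k = s₁ s⁻¹ ∈ K ⊓ S₀ = C`).  `CY2`: for
`(k s, k' g)` take `r ∈ S₀` for `(s, g)`: `r ^ i * (k * s) = (r ^ i * k * r ^ (-i)) * (r ^ i * s) ∈ K`.  Index: `S₀ / C → S / K` is a bijection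
(or `|S| |C| = |K| |S₀|`). -/
def KNQ_stmt : Prop :=
  ∀ (Γ : Type) [Group Γ] [Finite Γ] (K S C S₀ : Subgroup Γ), K ≤ S → S ≤ nz K → C ≤ S₀ → S₀ ≤ S →
    S₀ ⊓ K = C → (∀ s ∈ S, ∃ k ∈ K, k * s ∈ S₀) →
    Nat.card C ^ 2 * nP K S = Nat.card K ^ 2 * nP C S₀ ∧ (CY2 C S₀ → CY2 K S) ∧
      K.relIndex S = C.relIndex S₀

/-- **KFP** (medium; pure).  Commuting pairs and fixed points.  Proof.  The left sum is `∑_{(s,g)} #{ψ ∈ B | cjF s ψ = ψ, cjF g ψ = ψ}` over the pairs of `T`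
commuting modulo `C` (exchange of finite sums).  The `|C|²` pairs in `C × C` (their commutators are in `C`) give `b` each.  Let `(s, g)` be another one,
`r` as in `CY2`; then `r ∉ C`.  A `ψ ∈ B` fixed by `r` is fixed by `s` and `g` (`s = r ^ (-i) c`, `c ∈ C`).  Say `s ∉ C` (the other case is the same): the
sets of the `ψ ∈ B` fixed by `r` and by `s` both have `y` elements and the first is contained in the second, so they are equal, and all their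
elements are fixed by `g`: `y` elements. -/
def KFP_stmt : Prop :=
  ∀ (Γ : Type) [Group Γ] [Finite Γ] (C T : Subgroup Γ) (B : Set (Γ → ℂ)) (y : ℕ), C ≤ T → CY2 C T →
    B.Finite → (∀ c ∈ C, ∀ ψ ∈ B, cjF c ψ = ψ) →
    (∀ t ∈ T, t ∉ C → {ψ : Γ → ℂ | ψ ∈ B ∧ cjF t ψ = ψ}.ncard = y) →
    ∑ᶠ ψ ∈ B, nP C (stF T ψ) + Nat.card C ^ 2 * y = Nat.card C ^ 2 * B.ncard + y * nP C T

/-- **KF1** (short; from FCY).  Proof.  Let `s, g ∈ T`, `[s, g] ∈ C`, `V = C ⊔ closure {s, g} ≤ T`.  `C` is normal in `V` (`T ≤ nz C`) and the images of `s, g` in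
`V / C` commute and generate it, so all commutators of `V` are in `C` (for instance: `V ⧸ C.subgroupOf V` is commutative, `Subgroup.closure` induction).
FCY for `D, C, V` gives `CyS C V`: `r ∈ V` such that every `x ∈ V` has `r ^ k * x ∈ C` for some `k : ℤ`. -/
def KF1_stmt : Prop :=
  ∀ (G : Type) [Group G] [Finite G] (D C T : Subgroup G), D ≠ ⊥ →
    (∀ c ∈ D, ∀ d ∈ D, c * d = d * c) → C ≤ T → T ≤ nz D → T ≤ nz C →
    (∀ c ∈ C, ∀ d ∈ D, c * d = d * c) →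
    (∀ t ∈ T, ∀ u ∈ D, u ≠ 1 → t * u = u * t → t ∈ C) → CY2 C T

/-- **KKI** (short-medium; pure).  `T / C` has `k` conjugacy classes.  Proof.  `Q = T ⧸ C.subgroupOf T` (normal); `nP C T = |C|² * #{(a, b) : Q × Q | Commute a b}`
(fibres of `T × T → Q × Q`), and this number is `|ConjClasses Q| * |Q|` (`card_comm_eq_card_conjClasses_mul_card` or
`card_comm_eq_..`), `1 ≤ |ConjClasses Q| ≤ |Q|`, `|Q| = C.relIndex T`. -/
def KKI_stmt : Prop :=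
  ∀ (Γ : Type) [Group Γ] [Finite Γ] (C T : Subgroup Γ), C ≤ T → T ≤ nz C →
    ∃ k : ℕ, 1 ≤ k ∧ k ≤ C.relIndex T ∧ nP C T = Nat.card C ^ 2 * (C.relIndex T * k)

/-! ## F. Chains (`Lo0`, `Loc` are those of `helper59/FI2/DefsC2`) -/

/-- **FCP2** (medium; from FRA, KNQ, KF1; model FCP).  Stabilisers.  Proof.  `K = cz P`, `S = stF N ψ`, `C = cz D`, `S₀ = stF (TT M D θ ⊓ N) ψ`.  `K ≤ S ≤ nz K`,
`C ≤ S₀ ≤ S`, `S₀ ⊓ K = C` (FRA (1)), and for `n ∈ S` some `k ∈ K` has `k * n ∈ TT M D θ` (FRA (2)), so `k * n ∈ S₀`: KNQ.  `CY2 C S₀` by KF1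
for `T = S₀ ≤ TT M D θ` (`free`, `nb`; `TT M D θ ≤ nz D`, so it normalises `cz D`).  The order of `S₀ / C` divides
that of `TT M D θ / C` (`Subgroup.relIndex_dvd..`, or cards), prime to `p` (`lo.bet`). -/
def FCP2_stmt : Prop :=
  ∀ (p : ℕ) (M : Ideal (integralClosure ℤ ℂ)), Setup p M → ∀ (G : Type) [Group G] [Finite G]
    (D : Subgroup G) (x : G) (θ χ : G → ℂ), Lo0 p M D x θ χ → ∀ P ≤ D, P ≠ ⊥ → ∀ N : Subgroup G,
    cz P ≤ N → N ≤ nz P → ∀ ψ ∈ Bl M (cz P) θ,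
    CY2 (cz P) (stF N ψ) ∧ ¬ p ∣ (cz P).relIndex (stF N ψ) ∧
    (cz P).relIndex (stF N ψ) ≤ (cz D).relIndex (TT M D θ) ∧
    Nat.card (cz D) ^ 2 * nP (cz P) (stF N ψ) =
      Nat.card (cz P) ^ 2 * nP (cz D) (stF (TT M D θ ⊓ N) ψ)

/-- **FSQ2** (short-medium; from FIX, FCP2, FRA, KFP, KF1; model FSQ).  Proof.  `T₀ = TT M D θ ⊓ N`, `B = Bl M (cz P) θ`, `|B| = |D|` (`Good.card`).  FCP2 (last item)
for every `ψ`; KFP for `C = cz D`, `T₀`, `y = 1` (FIX; `cz D ≤ cz P` fixes the `ψ`; `CY2 (cz D) T₀` by KF1 for `T = T₀`). -/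
def FSQ2_stmt : Prop :=
  ∀ (p : ℕ) (M : Ideal (integralClosure ℤ ℂ)), Setup p M → ∀ (G : Type) [Group G] [Finite G]
    (D : Subgroup G) (x : G) (θ χ : G → ℂ), Loc p M D x θ χ → ∀ P ≤ D, P ≠ ⊥ → ∀ N : Subgroup G,
    cz P ≤ N → N ≤ nz P →
    Nat.card (cz D) ^ 2 * ∑ᶠ ψ ∈ Bl M (cz P) θ, nP (cz P) (stF N ψ) =
      Nat.card (cz P) ^ 2 * (Nat.card (cz D) ^ 2 * (Nat.card D - 1) + nP (cz D) (TT M D θ ⊓ N))

/-- **FCQ2** (short-medium; from FCP2, HTZ, FEQ; model FCQ).  Transport by `lo.con` and FEQ (`nP (cjS g K) (cjS g S) = nP K S`, `CY2`). -/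
def FCQ2_stmt : Prop :=
  ∀ (p : ℕ) (M : Ideal (integralClosure ℤ ℂ)), Setup p M → ∀ (G : Type) [Group G] [Finite G]
    (D : Subgroup G) (x : G) (θ χ : G → ℂ), Loc p M D x θ χ → ∀ P : Subgroup G, IsPGroup p P →
    P ≠ ⊥ → ∀ N : Subgroup G, cz P ≤ N → N ≤ nz P → ∀ ψ ∈ Blk M χ (cz P),
    CY2 (cz P) (stF N ψ) ∧ ¬ p ∣ (cz P).relIndex (stF N ψ) ∧
    (cz P).relIndex (stF N ψ) ≤ (cz D).relIndex (TT M D θ) ∧
    ∀ a : ℕ, Nat.card D = p ^ a → Defect p (cz P) ψ a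

/-- **FNC2** (medium; from FMX, F122, FCQ2, FNG, FSQ2, FEQ, FSI; model FNC).  Proof.  As FNC: `K = cz P`, `T = TT M D θ`, `C₀ = cz D`.  F122:
`|K| |N| #Blk = ∑_η nP K (stF N η)`; FNG: `|A_η| |C₀| = |T| |K|`; so `|T| |K| (|K| |N| #Blk) = |C₀| ∑_g ∑_{ψ ∈ Bl (cz P')} nP (cz P') (stF (cjS g N) ψ)`, `P' = cjS g P`; multiply by `|C₀|²`
and use FSQ2: `= |C₀| |K|² ∑_g (..)`; cancel `|K|² |C₀|`.  Defects: F122 (second part) and FCQ2. -/
def FNC2_stmt : Prop :=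
  ∀ (p : ℕ) (M : Ideal (integralClosure ℤ ℂ)), Setup p M → ∀ (G : Type) [Group G] [Finite G]
    (D : Subgroup G) (x : G) (θ χ : G → ℂ), Loc p M D x θ χ → ∀ C : Finset (Subgroup G),
    NCh p ⊤ ⊥ C → C ≠ {⊥} →
    Nat.card (cz D) * (Nat.card (TT M D θ) * (Nat.card (nrm C) * (Blk M χ (nrm C)).ncard)) =
      ∑ᶠ g ∈ {g : G | ∀ Q ∈ C, cjS g Q ≤ D},
        (Nat.card (cz D) ^ 2 * (Nat.card D - 1) + nP (cz D) (TT M D θ ⊓ cjS g (nrm C))) ∧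
    ((cz D).relIndex (TT M D θ) < p ^ 2 → ∀ φ ∈ Blk M χ (nrm C), ∀ a : ℕ, Nat.card D = p ^ a →
      Defect p (nrm C) φ a)

/-- **FFS2** (medium; from FNC2, FTG, NM, SN of DC; model FFS).  FTG with `f U = |cz D|² (|D| - 1) + nP (cz D) U`. -/
def FFS2_stmt : Prop :=
  ∀ (p : ℕ) (M : Ideal (integralClosure ℤ ℂ)), Setup p M → ∀ (G : Type) [Group G] [Finite G]
    (D : Subgroup G) (x : G) (θ χ : G → ℂ), Loc p M D x θ χ →
    ((Nat.card (cz D) : ℤ) * Nat.card (TT M D θ)) *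
      ∑ᶠ C ∈ {C : Finset (Subgroup G) | NCh p ⊤ ⊥ C ∧ C ≠ {⊥}},
        (-1) ^ (C.card + 1) * ((Nat.card (nrm C) : ℤ) * (Blk M χ (nrm C)).ncard) =
    - ((Nat.card G : ℤ) *
      ((Nat.card (cz D) : ℤ) ^ 2 * ((Nat.card D : ℤ) - 1) + nP (cz D) (TT M D θ)))

open Classical in
/-- **FFF2** (medium; from FT0, FFS2, FNC2, FRA, KKI; model FFF and `helper12/FI/Fin.lean`, `PF_count`).  THE OUTPUT OF BLOCK F.  `k` is the number of conjugacy classes of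
`T / cz D` (KKI; `|T| = |cz D| * iI`).  Proof.  As FFF; cancel `|G| |cz D|²`.  (1) sum over `d`: FT0 for every `d`, `∑ᶠ d (BlkD p M χ N d).ncard = (Blk M χ N).ncard` for every chain
(finitely many `d` occur; every `ψ` has exactly one defect). (2) if the index is `< p²` then `BlkD p M χ (nrm C) d` is `Blk M χ (nrm C)` for `d = a` and empty otherwise, `C ≠ {⊥}`. -/
def FFF2_stmt : Prop :=
  ∀ (p : ℕ) (M : Ideal (integralClosure ℤ ℂ)), Setup p M → ∀ (G : Type) [Group G] [Finite G]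
    (D : Subgroup G) (x : G) (θ χ : G → ℂ), Loc p M D x θ χ → IsOp p (⊤ : Subgroup G) ⊥ →
    ∃ k : ℕ, 1 ≤ k ∧ k ≤ (cz D).relIndex (TT M D θ) ∧
      nP (cz D) (TT M D θ) = Nat.card (cz D) ^ 2 * ((cz D).relIndex (TT M D θ) * k) ∧
      ((cz D).relIndex (TT M D θ) : ℤ) * ∑ᶠ d : ℤ, altSum (trivE G) p M χ d ⊤ =
        ((cz D).relIndex (TT M D θ) : ℤ) * (Blk M χ ⊤).ncard -
          ((Nat.card D : ℤ) - 1 + ((cz D).relIndex (TT M D θ) : ℤ) * k) ∧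
      ((cz D).relIndex (TT M D θ) < p ^ 2 → ∀ a : ℕ, Nat.card D = p ^ a → ∀ d : ℤ,
        ((cz D).relIndex (TT M D θ) : ℤ) * altSum (trivE G) p M χ d ⊤ =
          ((cz D).relIndex (TT M D θ) : ℤ) * (BlkD p M χ ⊤ d).ncard -
            (if d = a then (Nat.card D : ℤ) - 1 + ((cz D).relIndex (TT M D θ) : ℤ) * k else 0))

end Pool.Agent.FI2
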