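import Mathlib
import Pool.Agent.helper7.FI2.SpecK
import Pool.Agent.helper1.FI3.SpecH
import Pool.Agent.helper70.FI3.SpecN3
import Pool.Agent.helper12.FI.QGL
import Pool.Agent.helper40.FI.SpecLA

set_option autoImplicit false

/-!
# Project fi2 (MP_baa4d7_al), version 2: the inertial quotient need not be abelian. Block H (heights) and the last steps

RULES. File `Pool/Agent/<seat>/FI2/XXX.lean` with

  import Pool.Agent.helper7.FI2.SpecH2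
  set_option autoImplicit false
  namespace Pool.Agent.FI2
  open Pool.Agent.helper58.DC Pool.Agent.DI Pool.Agent.GR Pool.Agent.OB Pool.Agent.DR Pool.Agent.FI
  theorem XXX (hYYY : YYY_stmt) ... : XXX_stmt := ...
  end Pool.Agent.FI2

auxiliary lemmas prefixed `XXX_`, no sorry, no double quotes, no convert / congr!. `Lo0`, `Loc` are those of `helper59/FI2/DefsC2`; `FI3.LoS`,
`FI3.LoS.of2`, `FI3.YY_bot`, `FI3.mem_YY`: `helper59/FI3/DefsP3`; `FI3.QLS_stmt`: `helper1/FI3/SpecH`; `FI3.QMXS_stmt`, `FI3.SUA3_stmt`, `FI3.N3CS_stmt`: `helper70/FI3/SpecN3`;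
`FI3.LAF3_stmt`: `helper12/FI3/DefsLA`; `FI3.QGO3_stmt`: `helper59/FI3/SpecP3`; `LG`, `LD`, `LAD`, `LPC` ..: `helper40/FI/SpecLA`. Any proved statement of the projects
FI, GR, DI, DC, DR may be added as a hypothesis.
-/

namespace Pool.Agent.FI2

open Pool.Agent.helper58.DC Pool.Agent.DI Pool.Agent.GR Pool.Agent.OB Pool.Agent.DR Pool.Agent.FI

/-- **HPU** (medium; pure, only Mathlib).  Integral vectors of small norm.
Proof.  `N = card ι`, `W = N ∑ a² - (∑ a)²`; `2 W = ∑ i, ∑ j, (a i - a j)²` (expand).  Let `v` be a value with `#{i | a i = v}` maximal, `E = {i | a i ≠ v}`, `t = #E` (so every value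
is taken at most `N - t` times).  (1) For every `i` there are at least `t` elements `j` with `a j ≠ a i`, and `(a i - a j)² ≥ 1` for them: `2 W ≥ N t`.  As `W < n N`: `t < 2 n`.
(2) Keep only the pairs (`i ∈ E`, `j ∉ E`) and (`i ∉ E`, `j ∈ E`): `W ≥ t (N - t)`.  If `t = n + s`, `1 ≤ s ≤ n - 1`: `s N ≥ s (n + 1)² ≥ (n + s)²` (`s (n + 1)² - (n + s)² = (s - 1) (n² - s)`), so `t (N - t) - n N = s N - t² ≥ 0`,
a contradiction.  So `t ≤ n`.  (3) `v = 0`: some `i` has `a i ≠ 0`, `i ≠ i₀`, `O i ⊆ E`, and `#(O i) = n ≥ #E`, so `E = O i`, `a = e` on `E`, `W = n e² (N - n) < n N`; if `e² ≥ 4` then `4 (N - n) < N`, `3 N < 4 n`, impossible.  So `e = ±1`.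
(4) `v ≠ 0`: `i₀ ∈ E`.  If some `i ≠ i₀` is in `E` then `O i ∪ {i₀} ⊆ E` has `n + 1` elements, a contradiction.  So `a = v` outside `i₀`, `W = (N - 1) v² < n N`; if `v² ≥ n + 1` then `(N - 1) (n + 1) < n N`, `N < n + 1`, impossible. -/
def HPU_stmt : Prop :=
  ∀ (ι : Type) [Fintype ι] [DecidableEq ι] (i₀ : ι) (a : ι → ℤ) (n : ℕ) (O : ι → Finset ι), 1 ≤ n →
    (n + 1) ^ 2 ≤ Fintype.card ι → a i₀ = 0 →
    (∀ i, i ≠ i₀ → i ∈ O i ∧ (O i).card = n ∧ i₀ ∉ O i ∧ ∀ j ∈ O i, a j = a i) →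
    (Fintype.card ι : ℤ) * ∑ i, a i ^ 2 - (∑ i, a i) ^ 2 < n * Fintype.card ι → (∃ i, a i ≠ 0) →
    (∃ b : ℤ, b ≠ 0 ∧ b ^ 2 ≤ n ∧ ∀ i, i ≠ i₀ → a i = b) ∨
    ∃ i₁, i₁ ≠ i₀ ∧ ∃ e : ℤ, (e = 1 ∨ e = -1) ∧ (∀ j ∈ O i₁, a j = e) ∧ ∀ j, j ∉ O i₁ → a j = 0

/-- **HLG** (medium; from HPU, LFI, LFR; compare LC3 and LPC: `Pool/Agent/*/FI/LC3.lean`, `LPC.lean`, copy from them).
Proof.  `l₀ = 1`: `LFx` is clear, `lX ⊥ 1 g` is everything (`z = 1`), `ov ⊥ 1` is everything.  `A` with `LAi Z 1 g A` from `gi` and choice (as in LC1); `A χ 1 = 0`.  Put `h u = ∑ l, A χ l * lv l u`; `h u = g χ u` for `u ≠ 1` (LFI), `h 1 = ∑ l, A χ l`.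
Parseval (as in LC2): `∑ u, ‖h u‖² = |D| ∑ l, A χ l ^ 2`.  So `|D| ∑ A² - (∑ A)² = ∑ u, ‖g χ u‖² < |I| |D|` (`g0`); `|D| = Fintype.card (D →* ℂˣ)` (`card_ov` or `card_hom`).  The orbit `O l` = image of `I` under `t ↦ tw t l`, `l ≠ 1`: `|O l| = |I|`
(`tw t l = tw t' l` gives `t = t'` by LFR), `1 ∉ O l`, `A χ` is constant on it (proof of LPC).  Not all `A χ l` are `0` (otherwise `g χ u = 0` for `u ≠ 1`: `gn`).  HPU.  First case: `g χ u = b * (0 - 1) = -b` for `u ≠ 1` (`sum_hlv`),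
`b² ≤ |I| < p²`, `b ≠ 0`, so `p ∤ b`, not `InM` (`InM.intCast`).  Second case: `g χ u = e * ∑ t : I, lv l₁ (t u)` is `e * |I|` modulo `InM` (as in LC3), `cop`. -/
def HLG_stmt : Prop := ∀ (p : ℕ) (M : Ideal (integralClosure ℤ ℂ)) (D : Type) [CommGroup D] [Fintype D]
  [Fintype (D →* ℂˣ)] (X : Type) [Fintype X] (Z : Subgroup D) (I : Subgroup (MulAut D)) (g : X → D → ℂ),
  Setup p M → LG p Z I g → Z = ⊥ → Nat.card I < p ^ 2 → (Nat.card I + 1) ^ 2 ≤ Nat.card D →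
  ∀ χ, ∑ u, ‖g χ u‖ ^ 2 < (Nat.card I : ℝ) * Nat.card D → ∀ u, u ≠ 1 → ¬ InM M (g χ u)

/-- **HLA** (short; from LEP, LGG, HLG; copy of `Pool/Agent/helper98/FI/LAF.lean`, part `c3`).  `g = lg Z ε d`; `‖g χ u‖ = ‖d χ u‖` for `u ≠ 1`, `g χ 1 = 0`, `g χ u = ε u * d χ u`. -/
def HLA_stmt : Prop := ∀ (p : ℕ) (M : Ideal (integralClosure ℤ ℂ)) (D : Type) [Group D] [Finite D]
  (X : Type) [Finite X] (Z : Subgroup D) (I : Subgroup (MulAut D)) (β d : X → D → ℂ) (n : D → ℤ),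
  LAD p M Z I β d n → Z = ⊥ → Nat.card I < p ^ 2 → (Nat.card I + 1) ^ 2 ≤ Nat.card D →
  ∀ χ, ∑ᶠ u ∈ {u : D | u ≠ 1}, ‖d χ u‖ ^ 2 < (Nat.card I : ℝ) * Nat.card D →
  ∀ u, u ≠ 1 → ¬ InM M (d χ u)

/-- **HNR** (medium; from QMXS, SUA3 of `helper70/FI3/SpecN3`, HTN of `helper58/FI/SpecC`, QEI, QES, B2).  The norm of a character of the block.
Proof.  `P = ⊥`, `L = cz ⊥ = ⊤` (`QGG_cz_bot` of `helper12/FI/QGG`), `T = TT M D θ`.  QMXS: `1 = ∑ᶠ u ∈ D, Su u / wt u`.  The term `u = 1`: `Cz L 1 = L`, by QES (last item) `ev χ' (eS L (Bl M L θ)) v = χ' v`, so `Su 1 = EE p L χ' χ'` (`conj (χ' v) = χ' v⁻¹`,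
B2 or as in the proof of QEI) `= r > 0` real (QEI (4)); `wt 1 = 1` (`Cz T 1 = T`).  A term `u ≠ 1`: `K = Cz L u = cz (zpowers u)` is `Good`; SUA3 and HTN (`EE p K ψ ψ' = 1 / |D|` for all `ψ, ψ' ∈ Bl M K θ`, so the double sum is a product):
`Su u = ‖dd M K θ χ' u‖² / |D|`.  `wt u = |T : Cz T u| = |T : cz D| = iI` (`Cz T u = cz D`: `⊆` is `Free`, `⊇`: `cz D ≤ T`, `u ∈ D`).  So `1 = r + (∑_{u ≠ 1} ‖dd‖²) / (|D| * iI)`, `r > 0`.  (Compare QMX, QMF of version 1: `Pool/Agent/helper20/FIB/QMX.lean`,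
`Pool/Agent/helper12/FI/QMF.lean`.) -/
def HNR_stmt : Prop :=
  ∀ (p : ℕ) (M : Ideal (integralClosure ℤ ℂ)), Setup p M → ∀ (G : Type) [Group G] [Finite G]
    (D : Subgroup G) (x : G) (θ χ : G → ℂ), Loc p M D x θ χ → ∀ χ' ∈ Bl M (cz (⊥ : Subgroup G)) θ,
    ∑ᶠ u ∈ {u : D | u ≠ 1}, ‖dd M (Cz (cz (⊥ : Subgroup G)) u) θ χ' u‖ ^ 2 <
      ((cz D).relIndex (TT M D θ) : ℝ) * Nat.card D

/-- **HQA** (short; from FI3.QLS).  The data of block LA for the whole group.  Proof.  `h.lo` gives `FI3.LoS` (`FI3.LoS.of2`), `FI3.YY_bot`: `YY M D θ = ⊥`; so `¬ D ≤ YY` (`h.lo.nb`), and the `Q ≤ D` not contained in `YY` are those `≠ ⊥`: `h.good`.  QLS for `P = ⊥`.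
`Zc D (cz ⊥) = Zc D ⊤ = ⊥` (`QGG_Zc`, `QGG_cz_bot` of `helper12/FI/QGG`), so both subgroups of the `LAD3` are `⊥` (`Subgroup.bot_subgroupOf`); rewrite, and the fields of `LAD3` with `Z = Y = ⊥` are those of `LAD` with `Z = ⊥`. -/
def HQA_stmt : Prop :=
  ∀ (p : ℕ) (M : Ideal (integralClosure ℤ ℂ)), Setup p M → p ≠ 2 → ∀ (G : Type) [Group G] [Finite G]
    (D : Subgroup G) (x : G) (θ χ : G → ℂ), Loc p M D x θ χ → ¬ TT M D θ ≤ cz D →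
    IsOp p (⊤ : Subgroup G) ⊥ →
    ∃ (I : Subgroup (MulAut D)) (β : Bl M (cz (⊥ : Subgroup G)) θ → D → ℂ) (n : D → ℤ),
      Nat.card I = (cz D).relIndex (TT M D θ) ∧
      LAD p M (⊥ : Subgroup D) I β (fun ψ u => dd M (Cz (cz (⊥ : Subgroup G)) u) θ ψ u) n ∧
      ∀ ψ : Bl M (cz (⊥ : Subgroup G)) θ, ∃ N k : ℕ, β ψ 1 = N ∧ N ≠ 0 ∧ (ψ : G → ℂ) 1 = k ∧
        padicValNat p N + padicValNat p (Nat.card (cz (⊥ : Subgroup G))) =
          padicValNat p k + padicValNat p (Nat.card D)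

/-- **HHT** (short-medium; from HQA, HLA, HNR, LCO, TPR; copy of the last part of `Pool/Agent/helper12/FI/QGG.lean`).  Heights are zero.  Proof.  `Blk M χ ⊤ = Bl M (cz ⊥) θ` (as in QGG).  `I`, `β`, `n` from HQA; HLA with HNR: `¬ InM (dd ψ u₀)` for some `u₀ ≠ 1`;
`β ψ u₀ = n u₀ * dd ψ u₀` with `p ∤ n u₀`, so `¬ InM (β ψ u₀)`; LCO (3): `¬ InM (β ψ 1)`, so `p ∤ N`, and the equation of valuations gives `Defect p ⊤ ψ a`. -/
def HHT_stmt : Prop :=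
  ∀ (p : ℕ) (M : Ideal (integralClosure ℤ ℂ)), Setup p M → p ≠ 2 → ∀ (G : Type) [Group G] [Finite G]
    (D : Subgroup G) (x : G) (θ χ : G → ℂ), Loc p M D x θ χ → ¬ TT M D θ ≤ cz D →
    IsOp p (⊤ : Subgroup G) ⊥ → (cz D).relIndex (TT M D θ) < p ^ 2 →
    ((cz D).relIndex (TT M D θ) + 1) ^ 2 ≤ Nat.card D → ∀ a : ℕ, Nat.card D = p ^ a →
    ∀ ψ ∈ Blk M χ (⊤ : Subgroup G), Defect p (⊤ : Subgroup G) ψ a

/-- **HGG** (short-medium; from HQA, LAF (of `helper40/FI/SpecLA`), FI3.N3CS, TPR).  The number of characters.  Proof.  `X = Bl M (cz ⊥) θ = Blk M χ ⊤` (as in QGG).  FI3.N3CS for `P = ⊥` (`FI3.LoS.of2`, `YY = ⊥`: the hypothesis on the `u ∈ YY` outside `Zc D (cz ⊥)` is empty), for `Z = Zc D (cz ⊥) = ⊥`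
and the trivial character `1`: `XL M (cz ⊥) θ ⊥ 1 = Bl M (cz ⊥) θ` (`ψ 1 = 1 * ψ 1`), so `iI * |X| * 1 = 1 * iI * l + (1 - 1) * iI ^ 2 + (|D| - 1)` with `l ≥ 1`.  HQA and LAF (`c1` for `l₀ = 1`, the set is everything, `Z.index = |D|`): `iI * |X| ≤ (|D| - 1) + iI ^ 2`.
So `iI * l ≤ iI ^ 2`, `l ≤ iI`. -/
def HGG_stmt : Prop :=
  ∀ (p : ℕ) (M : Ideal (integralClosure ℤ ℂ)), Setup p M → p ≠ 2 → ∀ (G : Type) [Group G] [Finite G]
    (D : Subgroup G) (x : G) (θ χ : G → ℂ), Loc p M D x θ χ → ¬ TT M D θ ≤ cz D →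
    IsOp p (⊤ : Subgroup G) ⊥ →
    ∃ l : ℕ, 1 ≤ l ∧ l ≤ (cz D).relIndex (TT M D θ) ∧
      (cz D).relIndex (TT M D θ) * (Blk M χ (⊤ : Subgroup G)).ncard =
        (cz D).relIndex (TT M D θ) * l + (Nat.card D - 1)

/-- **HEX** (short-medium; pure, only Mathlib).  A nonabelian group acting freely needs rank `2`.
Proof.  Suppose `[s, t] ∉ C` for some `s, t ∈ T`, and let `z ∈ D`, `z ≠ 1`, `orderOf z = p ^ c`, `c ≥ 1`.  Let `E = {w ∈ D | w ^ p = 1 ∧ ∃ u ∈ D, u ^ p ^ (c - 1) = w}`, a subgroup (`D` is abelian) invariant under conjugation by `T`, and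
`w₀ = z ^ p ^ (c - 1) ∈ E`, `w₀ ≠ 1`.  If `E ≤ zpowers w₀` then `s w₀ s⁻¹ = w₀ ^ i`, `t w₀ t⁻¹ = w₀ ^ j`, so `[s, t]` commutes with `w₀` (`s t w₀ t⁻¹ s⁻¹ = w₀ ^ (i j) = t s w₀ s⁻¹ t⁻¹`), and `[s, t] ∈ C`, a contradiction.  So there is `w ∈ E` which is not in
`zpowers w₀`, `w = u ^ p ^ (c - 1)`, `u ∈ D`; `orderOf u = p ^ c` (`w ≠ 1`, `w ^ p = 1`).  `zpowers z ⊓ zpowers u = ⊥`: an element `y ≠ 1` of the intersection has a power `y'` of order `p`; `y' ∈ zpowers z` has order `p`, so `y' ∈ zpowers w₀`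
(the elements of `zpowers z` of order dividing `p` are the powers of `z ^ p ^ (c - 1)`), `y' ∈ zpowers w`, and `zpowers w = zpowers y' = zpowers w₀` (order `p`): contradiction.  So `(i, j) ↦ z ^ i * u ^ j`, `i, j < p ^ c`, is injective into `D`: `(p ^ c)² ≤ |D|`. -/
def HEX_stmt : Prop :=
  ∀ (p : ℕ), p.Prime → ∀ (G : Type) [Group G] [Finite G] (D C T : Subgroup G), IsPGroup p D →
    (∀ c ∈ D, ∀ d ∈ D, c * d = d * c) → T ≤ nz D →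
    (∀ t ∈ T, ∀ u ∈ D, u ≠ 1 → t * u = u * t → t ∈ C) →
    (∀ s ∈ T, ∀ t ∈ T, s * t * s⁻¹ * t⁻¹ ∈ C) ∨ ∀ z ∈ D, orderOf z ^ 2 ≤ Nat.card D

/-- **LO02** (from CON CNJ DFL BET EQY; copy of `helper58/FI/LO0`). -/
def LO02_stmt : Prop :=
  ∀ (p : ℕ) (M : Ideal (integralClosure ℤ ℂ)), Setup p M → ∀ (G : Type) [Group G] [Finite G]
    (D : Subgroup G) (x : G) (θ χ : G → ℂ), Rt p M D x θ χ → Free M D θ → D ≠ ⊥ → Lo0 p M D x θ χ

/-- **LOC2** (from FI3.QGO3). -/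
def LOC2_stmt : Prop :=
  ∀ (p : ℕ) (M : Ideal (integralClosure ℤ ℂ)), Setup p M → p ≠ 2 → ∀ (G : Type) [Group G] [Finite G]
    (D : Subgroup G) (x : G) (θ χ : G → ℂ), Lo0 p M D x θ χ → ¬ TT M D θ ≤ cz D → Loc p M D x θ χ

end Pool.Agent.FI2
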