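import Pool.Agent.helper7.FI2.SpecH2
import Pool.Agent.helper12.FI.Fin

/-!
# Project fi2 (MP_baa4d7_al), version 2: the final step
-/

set_option autoImplicit false

namespace Pool.Agent.FI2

open Pool.Agent.helper58.DC Pool.Agent.DI Pool.Agent.GR Pool.Agent.OB Pool.Agent.DR Pool.Agent.FI

/-- arithmetic of the last step -/
theorem FIN2_arith {i l k K n E : ℕ} {S : ℤ} (hi : 1 ≤ i) (hn : 1 ≤ n) (hS : (i : ℤ) * S = i * K - ((n : ℤ) - 1 + i * k))
    (hK : i * K = i * l + (n - 1)) (hl1 : 1 ≤ l) (hl2 : l ≤ i) (hk1 : 1 ≤ k) (hk2 : k ≤ i)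
    (hE : (E : ℤ) ∣ S) (hEI : i < E) : S = 0 ∧ l = k := by
  have hi0 : (i : ℤ) ≠ 0 := by exact_mod_cast (by omega : i ≠ 0)
  have hK' : (i : ℤ) * K = i * l + (n - 1) := by
    have h2 : ((i * K : ℕ) : ℤ) = ((i * l + (n - 1) : ℕ) : ℤ) := by rw [hK]
    push_cast at h2
    rw [Nat.cast_sub hn] at h2
    simpa using h2
  have hS' : S = l - k := by
    apply mul_left_cancel₀ hi0
    rw [hS, hK']
    ring
  have h0 : S = 0 := by
    by_contra hne
    have h1 : (E : ℤ) ≤ |S| := by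
      have h2 := Int.le_of_dvd (abs_pos.2 hne) ((dvd_abs _ _).2 hE)
      exact h2
    have h3 : |S| < E := by
      rw [hS', abs_lt]
      constructor
      · have : (1 : ℤ) ≤ l := by exact_mod_cast hl1
        have h4 : (k : ℤ) ≤ i := by exact_mod_cast hk2
        have h5 : (i : ℤ) < E := by exact_mod_cast hEI
        linarith
      · have : (1 : ℤ) ≤ k := by exact_mod_cast hk1
        have h4 : (l : ℤ) ≤ i := by exact_mod_cast hl2
        have h5 : (i : ℤ) < E := by exact_mod_cast hEI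
        linarith
    omega
  refine ⟨h0, ?_⟩
  have : (l : ℤ) = k := by
    rw [hS'] at h0
    linarith
  exact_mod_cast this

theorem FIN2_core (hLO : LO02_stmt) (hLC : LOC2_stmt) (hGG : HGG_stmt) (hHT : HHT_stmt) (hEX : HEX_stmt)
    (hFF : FFF2_stmt) (p : ℕ) (hpr : p.Prime) (hodd : p ≠ 2) (M : Ideal (integralClosure ℤ ℂ)) (hM : M.IsMaximal)
    (hp : (p : integralClosure ℤ ℂ) ∈ M) (G : Type) [Group G] [Finite G]
    (hG : IsOp p (⊤ : Subgroup G) ⊥) (D : Subgroup G) (x : G) (θ χ : G → ℂ)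
    (hdef : Pool.Agent.MAP.DefectGroup p M χ D) (hR : Rt p M D x θ χ) (hFr : Free M D θ)
    (hna : ∃ s ∈ TT M D θ, ∃ t ∈ TT M D θ, s * t * s⁻¹ * t⁻¹ ∉ cz D)
    (hsm : ∃ z ∈ D, (cz D).relIndex (TT M D θ) < orderOf z) :
    ∃ k : ℕ, 1 ≤ k ∧ k ≤ (cz D).relIndex (TT M D θ) ∧
      nP (cz D) (TT M D θ) = Nat.card (cz D) ^ 2 * ((cz D).relIndex (TT M D θ) * k) ∧
      (cz D).relIndex (TT M D θ) * (Blk M χ (⊤ : Subgroup G)).ncard =
        (cz D).relIndex (TT M D θ) * k + (Nat.card D - 1) ∧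
      ∑ᶠ d : ℤ, altSum (trivE G) p M χ d ⊤ = 0 ∧
      ((cz D).relIndex (TT M D θ) < p ^ 2 → ∀ a : ℕ, Nat.card D = p ^ a →
        (∀ d : ℤ, altSum (trivE G) p M χ d ⊤ = 0) ∧
        ∀ ψ ∈ Blk M χ (⊤ : Subgroup G), Defect p (⊤ : Subgroup G) ψ a) := by
  classical
  have hS : Setup p M := ⟨hpr, hM, hp⟩
  have : Fact p.Prime := ⟨hpr⟩
  have hpg : IsPGroup p D := hR.dfa.pgrp
  have hDcz : D ≤ cz D := by
    intro a ha
    rw [Subgroup.mem_centralizer_iff]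
    intro b hb
    exact hR.com b hb a ha
  have hT : ¬ TT M D θ ≤ cz D := by
    intro h
    obtain ⟨s, hs, t, ht, hst⟩ := hna
    exact hst ((TT M D θ).mul_mem ((TT M D θ).mul_mem ((TT M D θ).mul_mem hs ht) ((TT M D θ).inv_mem hs))
      ((TT M D θ).inv_mem ht) |> fun h1 => h h1)
  have hDn : D ≠ ⊥ := by
    rintro rfl
    apply hT
    intro t _
    rw [Subgroup.mem_centralizer_iff]
    intro y hy
    have h1 : y = 1 := Subgroup.mem_bot.1 hy
    rw [h1, one_mul, mul_one]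
  set iI : ℕ := (cz D).relIndex (TT M D θ) with hiI
  have hi1 : 1 ≤ iI := Nat.one_le_iff_ne_zero.2 (Subgroup.FiniteIndex.index_ne_zero)
  obtain ⟨z, hzD, hzz⟩ := hsm
  obtain ⟨c, hc⟩ : ∃ c : ℕ, orderOf z = p ^ c := by
    obtain ⟨k, hk⟩ := hpg ⟨z, hzD⟩
    have h1 : z ^ p ^ k = 1 := by
      have h2 := congrArg Subtype.val hk
      simpa using h2
    exact ((Nat.dvd_prime_pow hpr).1 (orderOf_dvd_of_pow_eq_one h1)).imp fun _ h => h.2
  have hc1 : 1 ≤ c := by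
    by_contra h0
    have h1 : c = 0 := by omega
    rw [hc, h1, pow_zero] at hzz
    omega
  have hcen : Pool.Agent.MAPW.CentreOut p c D := by
    refine ⟨hc1, z, hzD, fun d hd => hR.com z hzD d hd, ?_⟩
    have h1 : ⁅D, D⁆ = ⊥ := by
      rw [Subgroup.commutator_eq_bot_iff_le_centralizer]
      exact hDcz
    rw [h1, Subgroup.mem_bot]
    intro h2
    have h3 := orderOf_dvd_of_pow_eq_one h2
    rw [hc] at h3
    have h4 := Nat.le_of_dvd (pow_pos hpr.pos _) h3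
    have h5 : p ^ (c - 1) < p ^ c := Nat.pow_lt_pow_right hpr.one_lt (by omega)
    omega
  have hdiv := Fin_div p hpr M hM hp G hG χ hR.chi D hdef c hcen
  have hL0 : Lo0 p M D x θ χ := hLO p M hS G D x θ χ hR hFr hDn
  have hL : Loc p M D x θ χ := hLC p M hS hodd G D x θ χ hL0 hT
  obtain ⟨l, hl1, hl2, hl3⟩ := hGG p M hS hodd G D x θ χ hL hT hG
  obtain ⟨k, hk1, hk2, hk3, hk4, hk5⟩ := hFF p M hS G D x θ χ hL hG
  have hcD : 1 ≤ Nat.card D := Nat.card_pos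
  have hE : ((p ^ c : ℕ) : ℤ) ∣ ∑ᶠ d : ℤ, altSum (trivE G) p M χ d ⊤ := by
    have h1 : ((p ^ c : ℕ) : ℤ) = (p : ℤ) ^ c := by push_cast; rfl
    rw [h1]
    exact hdiv
  obtain ⟨hS0, hlk⟩ := FIN2_arith hi1 hcD hk4 hl3 hl1 hl2 hk1 hk2 hE (hc ▸ hzz)
  subst hlk
  refine ⟨l, hl1, hl2, hk3, hl3, hS0, ?_⟩
  intro hip a ha
  have hbig : (iI + 1) ^ 2 ≤ Nat.card D := by
    rcases hEX p hpr G D (cz D) (TT M D θ) hpg hR.com (fun t ht => ht.1) hFr with h1 | h1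
    · obtain ⟨s, hs, t, ht, hst⟩ := hna
      exact absurd (h1 s hs t ht) hst
    · exact le_trans (Nat.pow_le_pow_left hzz 2) (h1 z hzD)
  have hht := hHT p M hS hodd G D x θ χ hL hT hG hip hbig a ha
  refine ⟨fun d => ?_, hht⟩
  have h5 := hk5 hip a ha d
  have hi0 : (iI : ℤ) ≠ 0 := by exact_mod_cast (by omega : iI ≠ 0)
  have hl3' : (iI : ℤ) * (Blk M χ (⊤ : Subgroup G)).ncard = iI * l + (Nat.card D - 1) := by
    have h2 : ((iI * (Blk M χ (⊤ : Subgroup G)).ncard : ℕ) : ℤ) = ((iI * l + (Nat.card D - 1) : ℕ) : ℤ) := by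
      rw [hl3]
    push_cast at h2
    rw [Nat.cast_sub hcD] at h2
    simpa using h2
  apply mul_left_cancel₀ hi0
  rw [h5, mul_zero]
  by_cases hd : d = a
  · subst hd
    have h6 : BlkD p M χ (⊤ : Subgroup G) ((a : ℕ) : ℤ) = Blk M χ (⊤ : Subgroup G) := by
      ext ψ
      constructor
      · rintro ⟨h7, -⟩
        exact h7
      · intro h7
        exact ⟨h7, hht ψ h7⟩
    rw [if_pos rfl, h6, hl3']
    ring
  · have h6 : BlkD p M χ (⊤ : Subgroup G) d = ∅ := by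
      rw [Set.eq_empty_iff_forall_notMem]
      rintro ψ ⟨h7, h8⟩
      exact hd (PF_defect_unique p ⊤ ψ _ _ h8 (hht ψ h7))
    rw [if_neg hd, h6, Set.ncard_empty]
    simp

end Pool.Agent.FI2
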