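import Pool.Agent.helper7.FI2.LO2
import Pool.Agent.helper7.FI2.FIN2
import Pool.Agent.helper12.FI.All
import Pool.Agent.helper59.FI2.AllC2
import Pool.Agent.helper59.FI3.AllP3
import Pool.Agent.helper1.FI3.AllH3
import Pool.Agent.helper11.FI2.HEX
import Pool.Agent.helper15.FI2.KKI
import Pool.Agent.helper19.FI2.FNC2
import Pool.Agent.helper29.FI2.FCL2
import Pool.Agent.helper29.FI2.FFS2
import Pool.Agent.helper31.FI2.FFF2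
import Pool.Agent.helper31.FI2.HPU
import Pool.Agent.helper55.FI2.KCC
import Pool.Agent.helper55.FI2.KF1
import Pool.Agent.helper55.FI2.KFP
import Pool.Agent.helper55.FI2.KTF
import Pool.Agent.helper6.FI2.F122
import Pool.Agent.helper6.FI2.HQA
import Pool.Agent.helper72.FI2.FCP2
import Pool.Agent.helper72.FI2.FSQ2
import Pool.Agent.helper72.FI2.HHT
import Pool.Agent.helper72.FI2.KNQ
import Pool.Agent.helper74.FI2.HLA
import Pool.Agent.helper79.FI2.FCQ2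
import Pool.Agent.helper89.FI2.HNR
import Pool.Agent.helper9.FI2.HLG
import Pool.Agent.helper96.FI2.FCN2
import Pool.Agent.helper96.FI2.KEE
import Pool.Agent.helper98.FI2.HGG
import Pool.Agent.helper65.FI3.N3CS
import Pool.Agent.helper84.FI3.QMXS
import Pool.Agent.helper14.FI3.TRSS
import Pool.Agent.helper64.FI3.NWT3
import Pool.Agent.helper11.FI3.SUA3
import Pool.Agent.helper76.FI3.SUC3
import Pool.Agent.helper1.FI3.QMY3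
import Pool.Agent.helper76.FI3.QWT3
import Pool.Agent.helper83.FI3.QWA3
import Pool.Agent.helper70.FI3.TRV3
import Pool.Agent.helper88.FI3.TRZ3
import Pool.Agent.helper39.FI3.TRL3
import Pool.Agent.helper33.FI3.DCV3
import Pool.Agent.helper88.FI3.DBV3
import Pool.Agent.helper76.FI3.GTR3

/-!
# Project fi2 (MP_baa4d7_al), version 2: assembly (no hypotheses)
-/

set_option autoImplicit false

namespace Pool.Agent.FI3.AllN3c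

open Pool.Agent Pool.Agent.FI3 Pool.Agent.FI Pool.Agent.GR Pool.Agent.helper58.DC Pool.Agent.DI Pool.Agent.OB

theorem nQWA3 : QWA3_stmt := QWA3 AllP3.pQFU3 AllC.cFEQ
theorem nQWT3 : QWT3_stmt := QWT3 nQWA3 AllP3.pQCN3 AllC.cFEQ
theorem nSUA3 : SUA3_stmt := SUA3 AllQ.qQES AllQ.qQCE AllR.rCHC GR.All.dB2
theorem nSUC3 : SUC3_stmt := SUC3 nSUA3 AllQ.qQCJ AllC.cFEQ GR.All.dB2
theorem nQMY3 : QMY3_stmt := QMY3 AllQ.qQMS nQWT3 nSUC3 AllQ.qQEI AllC.cFEQ GR.All.dB2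
theorem nQMXS : QMXS_stmt := QMXS nQMY3 GR.All.dPPT GR.All.dB2
theorem nDCV3 : DCV3_stmt :=
  DCV3 AllR.rRR1 AllR.rEVM GR.All.dIDM GR.All.dEIN GR.All.dCVF GR.All.dCCI GR.All.dEXP GR.All.dB2
theorem nDBV3 : DBV3_stmt :=
  DBV3 AllR.rRR2 AllR.rCOF GR.All.dIDM GR.All.dEIN GR.All.dCVF GR.All.dCCI GR.All.dEXP AllC.cFEQ
theorem nTRZ3 : TRZ3_stmt := TRZ3 nDBV3 AllP3.pQFU3 AllP3.pFRA3
theorem nTRL3 : TRL3_stmt := TRL3 AllQ.qQCE GR.All.dB2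
theorem nTRV3 : TRV3_stmt := TRV3 nTRZ3 nTRL3 nDCV3 AllR.rRR4 GR.All.dB2
theorem nTRSS : TRSS_stmt := TRSS nTRV3 AllR.rCJI GR.All.dIDM GR.All.dB2
theorem nGTR3 : GTR3_stmt := GTR3 AllC.cHTN
theorem nNWT3 : NWT3_stmt := NWT3 AllP3.pFRA3 nGTR3
theorem nN3CS : N3CS_stmt := N3CS nQMXS nTRSS nNWT3 AllQ.qQIR AllA.dEXB GR.All.dB2

end Pool.Agent.FI3.AllN3c

namespace Pool.Agent.FI2.All2

open Pool.Agent Pool.Agent.FI2 Pool.Agent.GR Pool.Agent.helper58.DC Pool.Agent.DI Pool.Agent.OB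

theorem sKTF : KTF_stmt :=
  KTF GR.All.dSCH GR.All.dIDM GR.All.dEXP GR.All.dB2 DR.All.rCFA DR.All.rCCJ
theorem sKCC : KCC_stmt := KCC sKTF FI.AllC.cFCE
theorem sKEE : KEE_stmt := KEE GR.All.dB2 GR.All.dIF GR.All.dGLP
theorem sFCL2 : FCL2_stmt := FCL2 sKCC sKEE DR.All.rCFA DR.All.rCFB DR.All.rCCJ GR.All.dIF
theorem sFCN2 : FCN2_stmt := FCN2 sFCL2 DR.All.rCFA DR.All.rCCJ GR.All.dIF
theorem sF122 : F122_stmt := F122 sFCN2 sFCL2 FI.AllC.cFOV DR.All.rCFA FI.AllC.cFEQ GR.All.dIF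
theorem sKNQ : KNQ_stmt := KNQ
theorem sKFP : KFP_stmt := KFP
theorem sKF1 : KF1_stmt := KF1 FI.AllC.cFCY
theorem sKKI : KKI_stmt := KKI
theorem sFCP2 : FCP2_stmt := FCP2 AllC2.dFRA sKNQ sKF1 GR.All.dIF
theorem sFSQ2 : FSQ2_stmt := FSQ2 AllC2.dFIX sFCP2 AllC2.dFRA sKFP sKF1 GR.All.dIF
theorem sFCQ2 : FCQ2_stmt := FCQ2 sFCP2 AllC2.dHTZ FI.AllC.cFEQ
theorem sFNC2 : FNC2_stmt :=
  FNC2 FI.AllC.cFMX sF122 sFCQ2 AllC2.dFNG sFSQ2 FI.AllC.cFEQ FI.AllC.cFSI GR.All.dIF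
theorem sFFS2 : FFS2_stmt := FFS2 sFNC2 FI.AllC.cFTG GR.All.dNM
theorem sFFF2 : FFF2_stmt := FFF2 FI.AllC.cFT0 sFFS2 sFNC2 AllC2.dFRA sKKI GR.All.dB2
theorem sHPU : HPU_stmt := HPU
theorem sHLG : HLG_stmt := HLG sHPU FI.aLA_LFI FI.aLA_LFR
theorem sHLA : HLA_stmt := HLA FI.aLA_LEP FI.aLA_LGG sHLG
theorem sHNR : HNR_stmt :=
  HNR FI3.AllN3c.nQMXS FI3.AllN3c.nSUA3 FI.AllC.cHTN FI.AllQ.qQEI FI.AllQ.qQES FI.AllR.rCHC GR.All.dB2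
theorem sHQA : HQA_stmt := HQA FI3.AllH3.hQLS
theorem sHHT : HHT_stmt := HHT sHQA sHLA sHNR FI.aLA_LCO FI.AllA.dTPR
theorem sHGG : HGG_stmt := HGG sHQA FI.aLA_LAF FI3.AllN3c.nN3CS FI.AllA.dTPR
theorem sHEX : HEX_stmt := HEX
theorem sLO02 : LO02_stmt := LO02 FI.AllB.dCON FI.AllB.dCNJ FI.AllA.dDFL FI.AllA.dBET FI.AllA.dEQY
theorem sLOC2 : LOC2_stmt := LOC2 FI3.AllP3.pQGO3

/-- Version 2: `D` abelian, the inertial quotient acts freely on `D` and is not abelian, `|I| < exp(D)`. -/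
theorem fi2_core (p : ℕ) (hpr : p.Prime) (hodd : p ≠ 2) (M : Ideal (integralClosure ℤ ℂ)) (hM : M.IsMaximal)
    (hp : (p : integralClosure ℤ ℂ) ∈ M) (G : Type) [Group G] [Finite G]
    (hG : IsOp p (⊤ : Subgroup G) ⊥) (D : Subgroup G) (x : G) (θ χ : G → ℂ)
    (hdef : Pool.Agent.MAP.DefectGroup p M χ D) (hR : FI.Rt p M D x θ χ) (hFr : FI.Free M D θ)
    (hna : ∃ s ∈ FI.TT M D θ, ∃ t ∈ FI.TT M D θ, s * t * s⁻¹ * t⁻¹ ∉ cz D)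
    (hsm : ∃ z ∈ D, (cz D).relIndex (FI.TT M D θ) < orderOf z) :
    ∃ k : ℕ, 1 ≤ k ∧ k ≤ (cz D).relIndex (FI.TT M D θ) ∧
      nP (cz D) (FI.TT M D θ) = Nat.card (cz D) ^ 2 * ((cz D).relIndex (FI.TT M D θ) * k) ∧
      (cz D).relIndex (FI.TT M D θ) * (Blk M χ (⊤ : Subgroup G)).ncard =
        (cz D).relIndex (FI.TT M D θ) * k + (Nat.card D - 1) ∧
      ∑ᶠ d : ℤ, altSum (trivE G) p M χ d ⊤ = 0 ∧
      ((cz D).relIndex (FI.TT M D θ) < p ^ 2 → ∀ a : ℕ, Nat.card D = p ^ a →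
        (∀ d : ℤ, altSum (trivE G) p M χ d ⊤ = 0) ∧
        ∀ ψ ∈ Blk M χ (⊤ : Subgroup G), Defect p (⊤ : Subgroup G) ψ a) :=
  FIN2_core sLO02 sLOC2 sHGG sHHT sHEX sFFF2 p hpr hodd M hM hp G hG D x θ χ hdef hR hFr hna hsm

end Pool.Agent.FI2.All2
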