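import Pool.Agent.helper7.FI2.SpecH2

/-!
# LO02, LOC2 of project fi2 (MP_baa4d7_al)
-/

set_option autoImplicit false

namespace Pool.Agent.FI2

open Pool.Agent.helper58.DC Pool.Agent.DI Pool.Agent.GR Pool.Agent.OB Pool.Agent.DR Pool.Agent.FI

theorem LO02 (hCON : CON_stmt) (hCNJ : Pool.Agent.FI.CNJ_stmt) (hDFL : DFL_stmt) (hBET : BET_stmt)
    (hEQY : EQY_stmt) : LO02_stmt := by
  intro p M hs G _ _ D x θ χ hrt hfree hnb
  refine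
    { rt := hrt
      free := hfree
      nb := hnb
      bet := hBET p M hs G D x θ χ hrt
      con := ?_
      cnj := ?_
      dfl := ?_
      eqr := ?_ }
  · intro Q hQ ψ hψ hi
    obtain ⟨g, h1, h2⟩ := hCON p M hs G D x θ χ hrt Q hQ ψ hψ hi
    exact ⟨g, h1, h2⟩
  · intro P hP ψ hψ h D₁ hD₁ hPD₁ hc θ₁ hθ₁ h1
    obtain ⟨l, hl, h2, h3⟩ := hCNJ p M hs G D x θ χ hrt P hP ψ hψ h D₁ hD₁ hPD₁ hc θ₁ hθ₁ h1
    exact ⟨l, hl, h2, h3⟩
  · intro P hP ψ hψ h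
    obtain ⟨x', hx', -, h1⟩ := hDFL p M hs G D x θ χ hrt P hP ψ hψ h
    exact ⟨x', hx', h1⟩
  · intro P hP y hy hpy z hz
    exact hEQY p M hs G (cz P) y hy hpy θ z hz

theorem LOC2 (hQGO3 : FI3.QGO3_stmt) : LOC2_stmt := by
  intro p M hs hp G _ _ D x θ χ h hT
  refine ⟨h, ?_⟩
  intro P hP hPb
  refine hQGO3 p M hs hp G D x θ χ (FI3.LoS.of2 h) P hP ?_
  rw [FI3.YY_bot h.free hT]
  intro h1
  exact hPb (le_bot_iff.1 h1)

end Pool.Agent.FI2
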